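import Pool.Agent.helper21.UB.Spec

set_option autoImplicit false

open Quaternion

namespace Pool.Agent.helper21.UB

theorem RC (hCLN : CLN_stmt) : RC_stmt := by
  rintro ⟨C, hC⟩
  refine ⟨C, ?_⟩
  intro k hk hsq hex K _ _ hfin hs
  obtain ⟨x, y, z, hxyz⟩ := hex
  have h1 : ∑ i, (![x, y, z] : Fin 3 → ℤ) i ^ 2 = (k : ℤ) := by
    rw [Fin.sum_univ_three]
    simpa using hxyz
  have h2 := hCLN k ![x, y, z] (by omega) hsq h1 K hfin hs
  exact le_trans (by exact_mod_cast h2) (hC k hk)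

end Pool.Agent.helper21.UB
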